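import Pool.Agent.Helper59.BZ.LevX

set_option autoImplicit false

namespace Pool.Agent.Results.MP_717513_nt.LevelOne

open UpperHalfPlane
open scoped MatrixGroups ModularForm

/-- the field of algebraic numbers, as a subfield of ℂ -/
abbrev Qbar : Type := algebraicClosure ℚ ℂ

/-- `M_0 = 0`, `M_{s+1} = M_s + 4 ^ M_s` -/
def Mseq : ℕ → ℕ
  | 0 => 0
  | (s + 1) => Mseq s + 4 ^ Mseq s

/-- the weights `k_I = 4 (2 (M_I + 1) + M_{I+1})` -/
def wt (I : ℕ) : ℕ := 4 * (2 * (Mseq I + 1) + Mseq (I + 1))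

/-- `a` is the sequence of q-expansion coefficients of the cusp form `f` for `SL_2(ℤ)` of weight
`k`, and `f` is a normalised eigenform of all Hecke operators `T_ℓ`, with eigenvalues `a ℓ` -/
def IsEigenform {k : ℕ} (f : CuspForm 𝒮ℒ (k : ℤ)) (a : ℕ → Qbar) : Prop :=
  (∀ τ : ℍ, HasSum (fun m : ℕ => (a m : ℂ) * Complex.exp (2 * Real.pi * Complex.I * (m : ℂ) * (τ : ℂ)))
    (f τ)) ∧
  a 1 = 1 ∧
  ∀ l : ℕ, l.Prime → ∀ m : ℕ, 1 ≤ m →
    a (l * m) + (if l ∣ m then (l : Qbar) ^ (k - 1) * a (m / l) else 0) = a l * a m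

/-- the field `K_{f,2} = ℚ_2(a_ℓ : ℓ an odd prime)`, with respect to the embedding `j` -/
noncomputable abbrev K (j : Qbar →+* AlgebraicClosure ℚ_[2]) (a : ℕ → Qbar) :
    IntermediateField ℚ_[2] (AlgebraicClosure ℚ_[2]) :=
  IntermediateField.adjoin ℚ_[2] {z | ∃ ℓ : ℕ, ℓ.Prime ∧ ℓ ≠ 2 ∧ z = j (a ℓ)}

theorem Mseq_eq (s : ℕ) : Mseq s = Pool.Agent.Helper44.BZ.Ms s := by
  induction s with
  | zero => rfl
  | succ s ih => simp only [Mseq, Pool.Agent.Helper44.BZ.Ms, ih]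

theorem wt_eq (I : ℕ) : wt I = 4 * Pool.Agent.Helper44.BZ.nn I := by
  unfold wt Pool.Agent.Helper44.BZ.nn Pool.Agent.Helper44.BZ.qq
  rw [Mseq_eq, Mseq_eq]

theorem emb_exists : Nonempty (Qbar →+* AlgebraicClosure ℚ_[2]) := by
  have h : Algebra.IsAlgebraic ℚ (algebraicClosure ℚ ℂ) := by
    refine ⟨fun x => ?_⟩
    obtain ⟨p, hp, hx⟩ := mem_algebraicClosure_iff.1 x.2
    refine ⟨p, hp, Subtype.ext ?_⟩
    have h1 : ((Polynomial.aeval x p : algebraicClosure ℚ ℂ) : ℂ) = Polynomial.aeval (x : ℂ) p := by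
      rw [Polynomial.aeval_eq_sum_range, Polynomial.aeval_eq_sum_range]
      push_cast
      refine Finset.sum_congr rfl fun i _ => ?_
      rw [Algebra.smul_def]
    rw [h1, hx]
    rfl
  exact ⟨(IsAlgClosed.lift (R := ℚ) (S := algebraicClosure ℚ ℂ)
    (M := AlgebraicClosure ℚ_[2])).toRingHom⟩

theorem result : Nonempty (Qbar →+* AlgebraicClosure ℚ_[2]) ∧
    ∀ (j : Qbar →+* AlgebraicClosure ℚ_[2]) (I : ℕ), 3 ≤ I →
    ∃ (f : CuspForm 𝒮ℒ ((wt I : ℕ) : ℤ)) (a : ℕ → Qbar),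
      IsEigenform f a ∧ FiniteDimensional ℚ_[2] (K j a) ∧
        2 ^ (I - 1) ≤ Module.finrank ℚ_[2] (K j a) := by
  refine ⟨emb_exists, fun j I hI => ?_⟩
  obtain ⟨f, a, h1, h2, h3, h4, h5⟩ := Pool.Agent.Helper59.BZ.explicit_weights j I hI
  have hw := wt_eq I
  generalize wt I = w at hw ⊢
  subst hw
  exact ⟨f, a, ⟨h1, h2, h3⟩, h4, h5⟩

end Pool.Agent.Results.MP_717513_nt.LevelOne
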